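import Pool.Agent.MP_dce662.Final

/-!
For every natural number `c` the class `F` contains a graph `G` whose shortest cycle cover has
length at least `4 |E(G)| / 3 + c` and at least `(4/3 + 1/162) |E(G)|`.
-/

set_option autoImplicit false

namespace Pool.Agent.Results.MP_dce662_co.UnboundedExcess

open Pool.Agent.MP_dce662

/-- For every `c` there is a graph `G` in the class `F` such that every cycle cover of `G` has
length at least `4 |E(G)| / 3 + c`, and also length at least `(4/3 + 1/162) |E(G)|`. -/
theorem result : ∀ c : ℕ, ∃ (W : Type) (_ : Finite W) (G : SimpleGraph W),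
    InF G ∧ (4 / 3 : ℚ) * G.edgeSet.ncard + c ≤ scc G ∧
      (4 / 3 + 1 / 162 : ℚ) * G.edgeSet.ncard ≤ scc G :=
  main

end Pool.Agent.Results.MP_dce662_co.UnboundedExcess
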